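import Pool.Agent.J4H57.CI.Loc3

/-!
# Project CI of helper20 (MP_e3ee0c_gt), job (NRM): the slice chart in the local model (helper57)
-/

open scoped Topology ContDiff
open Set

noncomputable section

namespace Pool.Agent.J4H57.CI

set_option linter.unusedSectionVars false

universe u

variable {E : Type u} [NormedAddCommGroup E] [NormedSpace ℝ E] [FiniteDimensional ℝ E] {m : ℕ}

section dat

variable {Ω : Set E} {W : Set ((Fin m → ℝ) × E)} {a : (Fin m → ℝ) × E → E}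
    {h : (Fin m → ℝ) →ₗ[ℝ] (E → ℝ)} {κ₀ : Fin m → ℝ} (A : Dat Ω W a h κ₀)

include A

/-- **The slice chart in the local model.** -/
theorem Dat.main {p : E} (hp : p ∈ Ω) {d : ℕ}
    (hd : Module.finrank ℝ (LinearMap.range (YL a p)) = d)
    (h5 : ∀ c, fderiv ℝ (h c) p = 0 → ∃ r : ℝ, Y a c p = r • Y a κ₀ p)
    (h7 : ∃ c, Y a c p = 0 ∧ ∀ u, (∀ c', fderiv ℝ (h c') p u = 0) →
      (∀ v, (∀ c', fderiv ℝ (h c') p v = 0) → fderiv ℝ (fderiv ℝ (h c)) p u v = 0) →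
      ∃ c', Y a c' p = u) :
    ∃ (φ : OpenPartialHomeomorph E E) (j : (Fin (2 * d - 1) → ℝ) →L[ℝ] E)
      (q : E →L[ℝ] (Fin (2 * d - 1) → ℝ)),
      p ∈ φ.source ∧ φ.source ⊆ Ω ∧ ContDiffOn ℝ ∞ φ φ.source ∧
      ContDiffOn ℝ ∞ φ.symm φ.target ∧ (∀ e, q (j e) = e) ∧
      (∀ y ∈ φ.source, Module.finrank ℝ (LinearMap.range (YL a y)) ≤ d ↔ j (q (φ y)) = φ y) ∧
      ∀ u : E, j (q (fderiv ℝ φ p u)) = fderiv ℝ φ p u → (∀ c, fderiv ℝ (h c) p u = 0) →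
        ∃ c, Y a c p = u := by
  obtain ⟨k, r, hk, O, φ, hfO, hfE, hφ1, hφ2, hφ3, hφ4, hφ5, hφ6⟩ := A.main0 hp hd h5 h7
  have hG : Module.finrank ℝ ((O × (Fin k → ℝ)) × (Fin r → ℝ)) = Module.finrank ℝ E := by
    rw [Module.finrank_prod, Module.finrank_prod, Module.finrank_fin_fun, Module.finrank_fin_fun,
      hfO, hfE]
  have hε : Module.finrank ℝ (Fin (2 * d - 1) → ℝ) = Module.finrank ℝ (O × (Fin k → ℝ)) := by
    rw [Module.finrank_prod, Module.finrank_fin_fun, Module.finrank_fin_fun, hfO]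
    omega
  let L : ((O × (Fin k → ℝ)) × (Fin r → ℝ)) ≃L[ℝ] E := ContinuousLinearEquiv.ofFinrankEq hG
  let ε : (Fin (2 * d - 1) → ℝ) ≃L[ℝ] (O × (Fin k → ℝ)) := ContinuousLinearEquiv.ofFinrankEq hε
  let j : (Fin (2 * d - 1) → ℝ) →L[ℝ] E :=
    (L : _ →L[ℝ] E).comp ((ContinuousLinearMap.inl ℝ (O × (Fin k → ℝ)) (Fin r → ℝ)).comp
      (ε : _ →L[ℝ] _))
  let q : E →L[ℝ] (Fin (2 * d - 1) → ℝ) :=
    (ε.symm : _ →L[ℝ] _).comp ((ContinuousLinearMap.fst ℝ (O × (Fin k → ℝ)) (Fin r → ℝ)).comp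
      (L.symm : E →L[ℝ] _))
  have hj : ∀ x, j x = L (ε x, 0) := fun x => rfl
  have hq : ∀ x, q x = ε.symm (L.symm x).1 := fun x => rfl
  have hjq : ∀ x : (O × (Fin k → ℝ)) × (Fin r → ℝ), j (q (L x)) = L x ↔ x.2 = 0 := by
    intro x
    rw [hj, hq, L.symm_apply_apply, ε.apply_symm_apply, L.injective.eq_iff]
    constructor
    · intro hx
      rw [← hx]
    · intro hx
      exact Prod.ext rfl hx.symm
  refine ⟨φ.transHomeomorph L.toHomeomorph, j, q, hφ1, hφ2, ?_, ?_, ?_, ?_, ?_⟩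
  · exact L.contDiff.comp_contDiffOn hφ3
  · have h1 : ContDiffOn ℝ ∞ (fun w => φ.symm (L.symm w)) (L.symm ⁻¹' φ.target) :=
      hφ4.comp L.symm.contDiff.contDiffOn (fun w hw => hw)
    exact h1
  · intro x
    rw [hj, hq, L.symm_apply_apply, ε.symm_apply_apply]
  · intro y hy
    rw [hφ5 y hy]
    exact (hjq (φ y)).symm
  · intro u hu hu2
    have e1 : fderiv ℝ (φ.transHomeomorph L.toHomeomorph) p u = L (fderiv ℝ φ p u) := by
      have h1 : fderiv ℝ (L ∘ φ) p = (L : _ →L[ℝ] E).comp (fderiv ℝ φ p) :=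
        L.comp_fderiv
      exact DFunLike.congr_fun h1 u
    rw [e1, hjq] at hu
    exact hφ6 u hu hu2

end dat

end Pool.Agent.J4H57.CI
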