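import Pool.Agent.J4H20.CI.Stm
import Pool.Agent.J4H57.CI.Loc4

/-!
# Project CI of helper20 (MP_e3ee0c_gt), job (NRM) (helper57)
-/

open scoped Topology ContDiff Manifold
open Set Metric Bundle Pool.Agent.Helper186 Pool.Agent.H826R2.Wein
open Pool.Agent.J4H20.CI

noncomputable section

namespace Pool.Agent.J4H57.CI

set_option linter.unusedSectionVars false

universe u v

variable {E : Type u} [NormedAddCommGroup E] [NormedSpace ℝ E] [FiniteDimensional ℝ E]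
  {M : Type v} [TopologicalSpace M] [ChartedSpace E M] [IsManifold 𝓘(ℝ, E) ∞ M] {m : ℕ}

lemma curve' {a : (Fin m → ℝ) × E → E} {y : E} (h : DifferentiableAt ℝ a (0, y))
    (c : Fin m → ℝ) : HasDerivAt (fun τ : ℝ => a (τ • c, y)) (Y a c y) 0 := by
  have h1 : HasDerivAt (fun τ : ℝ => ((τ • c, y) : (Fin m → ℝ) × E)) (c, 0) 0 := by
    have := ((hasDerivAt_id (0 : ℝ)).smul_const c).prodMk (hasDerivAt_const (0 : ℝ) y)
    simpa using this
  have h0 : (((0 : ℝ) • c, y) : (Fin m → ℝ) × E) = (0, y) := by rw [zero_smul]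
  have h2 : HasFDerivAt a (fderiv ℝ a (0, y)) (((0 : ℝ) • c, y) : (Fin m → ℝ) × E) := by
    rw [h0]
    exact h.hasFDerivAt
  exact h2.comp_hasDerivAt (0 : ℝ) h1

section va

variable (A : VA E M m) (x₀ : M)

/-- the action in the chart -/
def ach (q : (Fin m → ℝ) × E) : E := chartAt E x₀ (A.act q.1 ((chartAt E x₀).symm q.2))

/-- the domain of the action in the chart -/
def Wch : Set ((Fin m → ℝ) × E) :=
  {q | q.2 ∈ (chartAt E x₀).target ∧ A.act q.1 ((chartAt E x₀).symm q.2) ∈ (chartAt E x₀).source}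

lemma ach_aux : ContMDiffOn 𝓘(ℝ, (Fin m → ℝ) × E) 𝓘(ℝ, E) ∞
    (fun q : (Fin m → ℝ) × E => A.act q.1 ((chartAt E x₀).symm q.2))
    (univ ×ˢ (chartAt E x₀).target) := by
  have h1 : ContMDiffOn 𝓘(ℝ, (Fin m → ℝ) × E) (𝓘(ℝ, Fin m → ℝ).prod 𝓘(ℝ, E)) ∞
      (fun q : (Fin m → ℝ) × E => (q.1, (chartAt E x₀).symm q.2))
      (univ ×ˢ (chartAt E x₀).target) := by
    apply ContMDiffOn.prodMk
    · exact contDiff_fst.contMDiff.contMDiffOn
    · exact (contMDiffOn_chart_symm (I := 𝓘(ℝ, E)) (n := ∞) (x := x₀)).comp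
        contDiff_snd.contMDiff.contMDiffOn (fun q hq => hq.2)
  exact A.smooth.comp_contMDiffOn h1

lemma Wch_eq : Wch A x₀ = (univ ×ˢ (chartAt E x₀).target) ∩
    (fun q : (Fin m → ℝ) × E => A.act q.1 ((chartAt E x₀).symm q.2)) ⁻¹' (chartAt E x₀).source := by
  ext q
  simp [Wch]

lemma Wch_open : IsOpen (Wch A x₀) := by
  rw [Wch_eq]
  exact (ach_aux A x₀).continuousOn.isOpen_inter_preimage
    (isOpen_univ.prod (chartAt E x₀).open_target) (chartAt E x₀).open_source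

lemma ach_smooth : ContDiffOn ℝ ∞ (ach A x₀) (Wch A x₀) := by
  rw [← contMDiffOn_iff_contDiffOn]
  have h1 := (ach_aux A x₀).mono (t := Wch A x₀) (by rw [Wch_eq]; exact inter_subset_left)
  exact (contMDiffOn_chart (I := 𝓘(ℝ, E)) (n := ∞) (x := x₀)).comp h1 (fun q hq => hq.2)

lemma Wch_zero {y : E} (hy : y ∈ (chartAt E x₀).target) : ((0 : Fin m → ℝ), y) ∈ Wch A x₀ := by
  refine ⟨hy, ?_⟩
  show A.act 0 ((chartAt E x₀).symm y) ∈ _
  rw [A.zero]
  exact (chartAt E x₀).map_target hy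

lemma ach_diff {y : E} (hy : y ∈ (chartAt E x₀).target) :
    DifferentiableAt ℝ (ach A x₀) (0, y) :=
  ((ach_smooth A x₀).contDiffAt ((Wch_open A x₀).mem_nhds (Wch_zero A x₀ hy))).differentiableAt
    (by simp)

/-- the derivative of the chart -/
def dch (x : M) : E →ₗ[ℝ] E :=
  (show E →L[ℝ] E from mfderiv 𝓘(ℝ, E) 𝓘(ℝ, E) (chartAt E x₀) x).toLinearMap

lemma dch_inj {x : M} (hx : x ∈ (chartAt E x₀).source) :
    Function.Injective (dch (E := E) x₀ x) := by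
  have h1 := (mdifferentiable_chart (I := 𝓘(ℝ, E)) x₀).mfderiv_injective hx
  exact h1

lemma dch_self (u : E) : dch (E := E) x₀ x₀ u = u := by
  have hd : MDifferentiableAt 𝓘(ℝ, E) 𝓘(ℝ, E) (chartAt E x₀) x₀ :=
    (mdifferentiable_chart (I := 𝓘(ℝ, E)) x₀).mdifferentiableAt (mem_chart_source E x₀)
  have h1 := mfderiv_eq_fderiv_chart (I := 𝓘(ℝ, E)) hd u
  have h2 : (chartAt E x₀ ∘ (extChartAt 𝓘(ℝ, E) x₀).symm) =ᶠ[𝓝 (extChartAt 𝓘(ℝ, E) x₀ x₀)] id := by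
    have h3 : (chartAt E x₀).target ∈ 𝓝 (extChartAt 𝓘(ℝ, E) x₀ x₀) :=
      (chartAt E x₀).open_target.mem_nhds ((chartAt E x₀).map_source (mem_chart_source E x₀))
    filter_upwards [h3] with z hz
    exact (chartAt E x₀).right_inv hz
  rw [h2.fderiv_eq, fderiv_id] at h1
  exact h1

/-- the generators in the chart -/
lemma Y_ach {y : E} (hy : y ∈ (chartAt E x₀).target) (c : Fin m → ℝ) :
    Y (ach A x₀) c y =
      dch (E := E) x₀ ((chartAt E x₀).symm y) (A.XL ((chartAt E x₀).symm y) c) := by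
  obtain ⟨x, hx⟩ : ∃ x, x = (chartAt E x₀).symm y := ⟨_, rfl⟩
  have hxs : x ∈ (chartAt E x₀).source := by rw [hx]; exact (chartAt E x₀).map_target hy
  rw [← hx]
  have h1 := curve' (ach_diff A x₀ hy) c
  have e1 : (fun τ : ℝ => ach A x₀ (τ • c, y)) = chartAt E x₀ ∘ fun τ : ℝ => A.fam c (τ, x) := by
    funext τ
    rw [hx]
    rfl
  rw [e1] at h1
  have h3 := A.hasMFDerivAt_fam_zero c x
  have h4 : HasMFDerivAt 𝓘(ℝ, E) 𝓘(ℝ, E) (chartAt E x₀) (A.fam c (0, x))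
      (mfderiv 𝓘(ℝ, E) 𝓘(ℝ, E) (chartAt E x₀) (A.fam c (0, x))) := by
    refine ((mdifferentiable_chart (I := 𝓘(ℝ, E)) x₀).mdifferentiableAt ?_).hasMFDerivAt
    rw [A.fam_zero]
    exact hxs
  have h5 := HasMFDerivAt.comp (0 : ℝ) h4 h3
  have h6 := h1.hasFDerivAt.hasMFDerivAt
  have h7 := DFunLike.congr_fun (hasMFDerivAt_unique h6 h5) (1 : ℝ)
  have h8 : ((1 : ℝ) • Y (ach A x₀) c y : E) =
      dch (E := E) x₀ (A.fam c (0, x)) ((1 : ℝ) • (A.XL x c : E)) := h7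
  rw [one_smul, one_smul] at h8
  rw [h8, A.fam_zero]

lemma YL_ach {y : E} (hy : y ∈ (chartAt E x₀).target) :
    YL (ach A x₀) y =
      (dch (E := E) x₀ ((chartAt E x₀).symm y)).comp (A.XL ((chartAt E x₀).symm y)) := by
  refine LinearMap.ext fun c => ?_
  exact Y_ach A x₀ hy c

lemma od_ach {y : E} (hy : y ∈ (chartAt E x₀).target) :
    Module.finrank ℝ (LinearMap.range (YL (ach A x₀) y)) = A.od ((chartAt E x₀).symm y) := by
  rw [YL_ach A x₀ hy, LinearMap.range_comp, VA.od]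
  exact (LinearEquiv.finrank_eq (Submodule.equivMapOfInjective _
    (dch_inj x₀ ((chartAt E x₀).map_target hy)) _)).symm

lemma Y_ach_self (c : Fin m → ℝ) : Y (ach A x₀) c (chartAt E x₀ x₀) = (A.XL x₀ c : E) := by
  have h1 := Y_ach A x₀ ((chartAt E x₀).map_source (mem_chart_source E x₀)) c
  have e1 : (chartAt E x₀).symm (chartAt E x₀ x₀) = x₀ :=
    (chartAt E x₀).left_inv (mem_chart_source E x₀)
  have h2 : ∀ z : M, z = x₀ → dch (E := E) x₀ z (A.XL z c) = A.XL x₀ c := by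
    rintro _ rfl
    exact dch_self _ _
  rw [h1]
  exact h2 _ e1

end va

section vs

variable {β : (x : M) → TangentSpace 𝓘(ℝ, E) x →L[ℝ] ℝ} (A : VS β m) (x₀ : M)

/-- the contact Hamiltonians in the chart -/
def hch : (Fin m → ℝ) →ₗ[ℝ] (E → ℝ) where
  toFun c y := A.H c ((chartAt E x₀).symm y)
  map_add' c c' := by
    funext y
    exact A.H_add c c' _
  map_smul' r c := by
    funext y
    exact A.H_smul r c _

lemma hch_deriv (hβ : SmoothForm β) {y : E} (hy : y ∈ (chartAt E x₀).target) (c : Fin m → ℝ)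
    (h0 : dForm 𝓘(ℝ, E) (A.H c) ((chartAt E x₀).symm y) = 0) : fderiv ℝ (hch A x₀ c) y = 0 := by
  have h1 : HasMFDerivAt 𝓘(ℝ, E) 𝓘(ℝ, ℝ) (A.H c) ((chartAt E x₀).symm y)
      (mfderiv 𝓘(ℝ, E) 𝓘(ℝ, ℝ) (A.H c) ((chartAt E x₀).symm y)) :=
    ((A.smooth_H hβ c).mdifferentiableAt (by simp)).hasMFDerivAt
  have h2 : HasMFDerivAt 𝓘(ℝ, E) 𝓘(ℝ, E) (chartAt E x₀).symm y
      (mfderiv 𝓘(ℝ, E) 𝓘(ℝ, E) (chartAt E x₀).symm y) :=
    ((mdifferentiable_chart (I := 𝓘(ℝ, E)) x₀).mdifferentiableAt_symm hy).hasMFDerivAt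
  have h3 := HasMFDerivAt.comp y h1 h2
  have h4 : HasFDerivAt (hch A x₀ c) (show E →L[ℝ] ℝ from
      (mfderiv 𝓘(ℝ, E) 𝓘(ℝ, ℝ) (A.H c) ((chartAt E x₀).symm y)).comp
        (mfderiv 𝓘(ℝ, E) 𝓘(ℝ, E) (chartAt E x₀).symm y)) y := h3.hasFDerivAt
  rw [h4.fderiv]
  have h5 : mfderiv 𝓘(ℝ, E) 𝓘(ℝ, ℝ) (A.H c) ((chartAt E x₀).symm y) = 0 := h0
  rw [h5]
  rfl

lemma hch_self (hβ : SmoothForm β) (c : Fin m → ℝ) (u : E) :
    fderiv ℝ (hch A x₀ c) (chartAt E x₀ x₀) u = dForm 𝓘(ℝ, E) (A.H c) x₀ u := by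
  have h1 := mfderiv_eq_fderiv_chart (I := 𝓘(ℝ, E))
    ((A.smooth_H hβ c).mdifferentiableAt (x := x₀) (by simp)) u
  exact h1.symm

/-- the local model -/
theorem datch (hc : IsContact β) {κ₀ : Fin m → ℝ} (hR : IsReeb β (A.X κ₀)) :
    Dat (chartAt E x₀).target (Wch A.toVA x₀) (ach A.toVA x₀) (hch A x₀) κ₀ where
  Ωo := (chartAt E x₀).open_target
  Wo := Wch_open _ _
  W0 y hy := Wch_zero _ _ hy
  asm := ach_smooth _ _
  a0 y hy := by
    show chartAt E x₀ (A.act 0 ((chartAt E x₀).symm y)) = y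
    rw [A.zero]
    exact (chartAt E x₀).right_inv hy
  aW q hq := by
    obtain ⟨h1, h2⟩ := hq
    have e1 : (chartAt E x₀).symm (ach A.toVA x₀ q) = A.act q.1 ((chartAt E x₀).symm q.2) :=
      (chartAt E x₀).left_inv h2
    have e2 : A.act (-q.1) ((chartAt E x₀).symm (ach A.toVA x₀ q)) = (chartAt E x₀).symm q.2 := by
      rw [e1, ← A.add, neg_add_cancel, A.zero]
    refine ⟨h1, (chartAt E x₀).map_source h2, ⟨(chartAt E x₀).map_source h2, ?_⟩, ?_⟩
    · show A.act (-q.1) ((chartAt E x₀).symm (ach A.toVA x₀ q)) ∈ _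
      rw [e2]
      exact (chartAt E x₀).map_target h1
    · show chartAt E x₀ (A.act (-q.1) ((chartAt E x₀).symm (ach A.toVA x₀ q))) = q.2
      rw [e2]
      exact (chartAt E x₀).right_inv h1
  hsm c := by
    rw [← contMDiffOn_iff_contDiffOn]
    exact (A.smooth_H hc.smooth c).comp_contMDiffOn
      (contMDiffOn_chart_symm (I := 𝓘(ℝ, E)) (n := ∞) (x := x₀))
  hinv c q hq := by
    obtain ⟨h1, h2⟩ := hq
    have e1 : (chartAt E x₀).symm (ach A.toVA x₀ q) = A.act q.1 ((chartAt E x₀).symm q.2) :=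
      (chartAt E x₀).left_inv h2
    show A.H c ((chartAt E x₀).symm (ach A.toVA x₀ q)) = A.H c ((chartAt E x₀).symm q.2)
    rw [e1, A.H_act]
  con y hy c h0 := by
    apply hch_deriv A x₀ hc.smooth hy
    rw [Y_ach A.toVA x₀ hy] at h0
    have h1 : A.X c ((chartAt E x₀).symm y) = 0 :=
      (map_eq_zero_iff (dch (E := E) x₀ ((chartAt E x₀).symm y))
        (dch_inj x₀ ((chartAt E x₀).map_target hy))).1 h0
    refine ContinuousLinearMap.ext fun u => ?_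
    have h2 := A.dH hc.smooth c ((chartAt E x₀).symm y) u
    rw [← extDerL_apply, h1, map_zero] at h2
    rw [h2]
    show -(0 : ℝ) = 0
    exact neg_zero
  reeb y hy := by
    constructor
    · have h1 : hch A x₀ κ₀ = fun _ => 1 := by
        funext z
        exact hR.unit _
      rw [h1]
      simp
    · rw [Y_ach A.toVA x₀ hy]
      intro h0
      have h1 : A.X κ₀ ((chartAt E x₀).symm y) = 0 :=
        (map_eq_zero_iff (dch (E := E) x₀ ((chartAt E x₀).symm y))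
          (dch_inj x₀ ((chartAt E x₀).map_target hy))).1 h0
      have h2 := hR.unit ((chartAt E x₀).symm y)
      rw [h1, map_zero] at h2
      exact zero_ne_one h2

end vs

/-- **(NRM)** -/
theorem t_NRM : Pool.Agent.J4H20.CI.S_NRM.{u, v} := by
  intro E _ _ _ M _ _ _ _ β hc m A κ₀ hR d x₀ hd hWN
  have D := datch A x₀ hc hR
  have hp : chartAt E x₀ x₀ ∈ (chartAt E x₀).target :=
    (chartAt E x₀).map_source (mem_chart_source E x₀)
  have hpx : (chartAt E x₀).symm (chartAt E x₀ x₀) = x₀ :=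
    (chartAt E x₀).left_inv (mem_chart_source E x₀)
  have hd' : Module.finrank ℝ (LinearMap.range (YL (ach A.toVA x₀) (chartAt E x₀ x₀))) = d := by
    rw [od_ach A.toVA x₀ hp, hpx]
    exact hd
  have h5 : ∀ c, fderiv ℝ (hch A x₀ c) (chartAt E x₀ x₀) = 0 →
      ∃ r : ℝ, Y (ach A.toVA x₀) c (chartAt E x₀ x₀) =
        r • Y (ach A.toVA x₀) κ₀ (chartAt E x₀ x₀) := by
    intro c h0
    have h1 : dForm 𝓘(ℝ, E) (A.H c) x₀ = 0 := by
      refine ContinuousLinearMap.ext fun u => ?_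
      have h2 := hch_self A x₀ hc.smooth c u
      rw [h0] at h2
      exact h2.symm
    refine ⟨A.H c x₀, ?_⟩
    rw [Y_ach_self, Y_ach_self]
    exact A.X_eq_of_crit hc hR h1
  have h7 : ∃ c, Y (ach A.toVA x₀) c (chartAt E x₀ x₀) = 0 ∧
      ∀ u, (∀ c', fderiv ℝ (hch A x₀ c') (chartAt E x₀ x₀) u = 0) →
      (∀ v, (∀ c', fderiv ℝ (hch A x₀ c') (chartAt E x₀ x₀) v = 0) →
        fderiv ℝ (fderiv ℝ (hch A x₀ c)) (chartAt E x₀ x₀) u v = 0) →
      ∃ c', Y (ach A.toVA x₀) c' (chartAt E x₀ x₀) = u := by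
    obtain ⟨c, h1, h2⟩ := hWN
    refine ⟨c, by rw [Y_ach_self]; exact h1, fun u hu hv => ?_⟩
    obtain ⟨c', hc'⟩ := h2 u (fun c' => by rw [← hch_self A x₀ hc.smooth]; exact hu c')
      (fun v hv' => hv v fun c' => by rw [hch_self A x₀ hc.smooth]; exact hv' c')
    exact ⟨c', by rw [Y_ach_self]; exact hc'⟩
  obtain ⟨φ, j, q, k1, k2, k3, k4, k5, k6, k7⟩ := D.main hp hd' h5 h7
  have hsrc : ((chartAt E x₀).trans φ).source =
      (chartAt E x₀).source ∩ (chartAt E x₀) ⁻¹' φ.source := OpenPartialHomeomorph.trans_source _ _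
  have htgt : ((chartAt E x₀).trans φ).target = φ.target ∩ φ.symm ⁻¹' (chartAt E x₀).target :=
    OpenPartialHomeomorph.trans_target _ _
  have hmem : x₀ ∈ ((chartAt E x₀).trans φ).source := by
    rw [hsrc]
    exact ⟨mem_chart_source E x₀, k1⟩
  have hsm : ContMDiffOn 𝓘(ℝ, E) 𝓘(ℝ, E) ∞ ((chartAt E x₀).trans φ)
      ((chartAt E x₀).trans φ).source := by
    rw [hsrc]
    have h1 : ContMDiffOn 𝓘(ℝ, E) 𝓘(ℝ, E) ∞ φ φ.source := contMDiffOn_iff_contDiffOn.2 k3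
    exact h1.comp ((contMDiffOn_chart (I := 𝓘(ℝ, E)) (n := ∞) (x := x₀)).mono inter_subset_left)
      (fun z hz => hz.2)
  refine ⟨⟨(chartAt E x₀).trans φ, hmem, hsm, ?_, j, q, k5, ?_⟩, ?_⟩
  · rw [htgt]
    have h1 : ContMDiffOn 𝓘(ℝ, E) 𝓘(ℝ, E) ∞ φ.symm φ.target := contMDiffOn_iff_contDiffOn.2 k4
    exact (contMDiffOn_chart_symm (I := 𝓘(ℝ, E)) (n := ∞) (x := x₀)).comp
      (h1.mono inter_subset_left) (fun w hw => hw.2)
  · intro x hx
    rw [hsrc] at hx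
    have h1 := k6 _ hx.2
    rw [od_ach A.toVA x₀ ((chartAt E x₀).map_source hx.1), (chartAt E x₀).left_inv hx.1] at h1
    exact h1
  · intro u hu hu2
    have e1 : (mfderiv 𝓘(ℝ, E) 𝓘(ℝ, E) ((chartAt E x₀).trans φ) x₀ u : E) =
        fderiv ℝ φ (chartAt E x₀ x₀) u := by
      have h1 := mfderiv_eq_fderiv_chart (I := 𝓘(ℝ, E)) (g := ((chartAt E x₀).trans φ : M → E))
        (x₀ := x₀) ((hsm.contMDiffAt
          (((chartAt E x₀).trans φ).open_source.mem_nhds hmem)).mdifferentiableAt (by simp)) u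
      have h2 : (((chartAt E x₀).trans φ : M → E) ∘ (extChartAt 𝓘(ℝ, E) x₀).symm)
          =ᶠ[𝓝 (extChartAt 𝓘(ℝ, E) x₀ x₀)] φ := by
        have h3 : (chartAt E x₀).target ∈ 𝓝 (extChartAt 𝓘(ℝ, E) x₀ x₀) :=
          (chartAt E x₀).open_target.mem_nhds hp
        filter_upwards [h3] with z hz
        show φ (chartAt E x₀ ((chartAt E x₀).symm z)) = φ z
        rw [(chartAt E x₀).right_inv hz]
      rw [h2.fderiv_eq] at h1
      exact h1
    obtain ⟨c, hc'⟩ := k7 u (by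
      have h1 : j (q (mfderiv 𝓘(ℝ, E) 𝓘(ℝ, E) ((chartAt E x₀).trans φ) x₀ u)) =
        (mfderiv 𝓘(ℝ, E) 𝓘(ℝ, E) ((chartAt E x₀).trans φ) x₀ u : E) := hu
      rw [e1] at h1
      exact h1) (fun c => by rw [hch_self A x₀ hc.smooth]; exact hu2 c)
    rw [Y_ach_self] at hc'
    exact ⟨c, hc'⟩

end Pool.Agent.J4H57.CI
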