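import Mathlib

/-!
# Project CI of helper20 (MP_e3ee0c_gt), job (NRM): the local model (helper57)

A local action `a` of `ℝ^m` on an open subset `Ω` of a vector space with invariant functions `h c`.
-/

open scoped Topology ContDiff
open Set

noncomputable section

namespace Pool.Agent.J4H57.CI

set_option linter.unusedSectionVars false

universe u

section ift

variable {E : Type*} [NormedAddCommGroup E] [NormedSpace ℝ E] [CompleteSpace E]
  {G : Type*} [NormedAddCommGroup G] [NormedSpace ℝ G]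

/-- inverse function theorem -/
theorem ift {Ω : Set E} (hΩ : IsOpen Ω) {p : E} (hp : p ∈ Ω) {ψ : E → G}
    (hψ : ContDiffOn ℝ ∞ ψ Ω) (D : E ≃L[ℝ] G) (hD : fderiv ℝ ψ p = (D : E →L[ℝ] G)) :
    ∃ φ : OpenPartialHomeomorph E G, p ∈ φ.source ∧ φ.source ⊆ Ω ∧ (∀ z, φ z = ψ z) ∧
      (∀ z ∈ φ.source, ∃ L : E ≃L[ℝ] G, fderiv ℝ ψ z = (L : E →L[ℝ] G)) ∧
      ContDiffOn ℝ ∞ φ.symm φ.target := by
  have hat : ∀ w ∈ Ω, ContDiffAt ℝ ∞ ψ w := fun w hw => hψ.contDiffAt (hΩ.mem_nhds hw)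
  have hfd : HasFDerivAt ψ (D : E →L[ℝ] G) p := by
    have h5 := ((hat _ hp).differentiableAt (by simp)).hasFDerivAt
    rwa [hD] at h5
  have hstrict : HasStrictFDerivAt ψ (D : E →L[ℝ] G) p :=
    (hat _ hp).hasStrictFDerivAt' hfd (by simp)
  let Φ := hstrict.toOpenPartialHomeomorph ψ
  have hΦp : p ∈ Φ.source := hstrict.mem_toOpenPartialHomeomorph_source
  let O : Set E := Ω ∩ fderiv ℝ ψ ⁻¹' range ((↑) : (E ≃L[ℝ] G) → E →L[ℝ] G)
  have hcf : ContinuousOn (fderiv ℝ ψ) Ω := hψ.continuousOn_fderiv_of_isOpen hΩ (by simp)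
  have hO : IsOpen O := hcf.isOpen_inter_preimage hΩ ContinuousLinearEquiv.isOpen
  have hpO : p ∈ O := ⟨hp, D, hD.symm⟩
  let Φ' := Φ.restrOpen O hO
  refine ⟨Φ', ⟨hΦp, hpO⟩, fun z hz => hz.2.1, fun z => rfl, fun z hz => ?_, ?_⟩
  · obtain ⟨-, -, L, hL⟩ := hz
    exact ⟨L, hL.symm⟩
  · intro w hw
    have hw2 : Φ'.symm w ∈ Φ'.source := Φ'.map_target hw
    obtain ⟨hw3, hw4, L, hL⟩ := hw2
    have h2 : HasFDerivAt Φ' (L : E →L[ℝ] G) (Φ'.symm w) := by
      have h3 := ((hat _ hw4).differentiableAt (by simp)).hasFDerivAt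
      have h4 : fderiv ℝ ψ (Φ'.symm w) = (L : E →L[ℝ] G) := hL.symm
      rw [h4] at h3
      exact h3
    exact (Φ'.contDiffAt_symm hw h2 (hat _ hw4)).contDiffWithinAt

end ift

variable {E : Type u} [NormedAddCommGroup E] [NormedSpace ℝ E] [FiniteDimensional ℝ E] {m : ℕ}

/-- the generator of the local action `a` in the direction `c` -/
def Y (a : (Fin m → ℝ) × E → E) (c : Fin m → ℝ) (y : E) : E :=
  fderiv ℝ a (0, y) (c, 0)

/-- the generators as a linear map -/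
def YL (a : (Fin m → ℝ) × E → E) (y : E) : (Fin m → ℝ) →ₗ[ℝ] E :=
  ((fderiv ℝ a (0, y)).comp (ContinuousLinearMap.inl ℝ (Fin m → ℝ) E)).toLinearMap

lemma YL_apply (a : (Fin m → ℝ) × E → E) (y : E) (c : Fin m → ℝ) : YL a y c = Y a c y := rfl

/-- A local action with invariant functions. -/
structure Dat (Ω : Set E) (W : Set ((Fin m → ℝ) × E)) (a : (Fin m → ℝ) × E → E)
    (h : (Fin m → ℝ) →ₗ[ℝ] (E → ℝ)) (κ₀ : Fin m → ℝ) : Prop where
  Ωo : IsOpen Ω
  Wo : IsOpen W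
  W0 : ∀ y ∈ Ω, ((0 : Fin m → ℝ), y) ∈ W
  asm : ContDiffOn ℝ ∞ a W
  a0 : ∀ y ∈ Ω, a (0, y) = y
  aW : ∀ q ∈ W, q.2 ∈ Ω ∧ a q ∈ Ω ∧ (-q.1, a q) ∈ W ∧ a (-q.1, a q) = q.2
  hsm : ∀ c, ContDiffOn ℝ ∞ (h c) Ω
  hinv : ∀ c, ∀ q ∈ W, h c (a q) = h c q.2
  con : ∀ y ∈ Ω, ∀ c, Y a c y = 0 → fderiv ℝ (h c) y = 0
  reeb : ∀ y ∈ Ω, fderiv ℝ (h κ₀) y = 0 ∧ Y a κ₀ y ≠ 0

section dat

variable {Ω : Set E} {W : Set ((Fin m → ℝ) × E)} {a : (Fin m → ℝ) × E → E}
    {h : (Fin m → ℝ) →ₗ[ℝ] (E → ℝ)} {κ₀ : Fin m → ℝ} (A : Dat Ω W a h κ₀)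

include A

lemma Dat.hd (c : Fin m → ℝ) {y : E} (hy : y ∈ Ω) : DifferentiableAt ℝ (h c) y :=
  ((A.hsm c).contDiffAt (A.Ωo.mem_nhds hy)).differentiableAt (by simp)

lemma Dat.ad {q : (Fin m → ℝ) × E} (hq : q ∈ W) : DifferentiableAt ℝ a q :=
  ((A.asm).contDiffAt (A.Wo.mem_nhds hq)).differentiableAt (by simp)

/-- the derivatives of the invariant functions vanish on the generators -/
lemma Dat.inv1 (c c' : Fin m → ℝ) {y : E} (hy : y ∈ Ω) : fderiv ℝ (h c) y (Y a c' y) = 0 := by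
  have h1 : (fun q : (Fin m → ℝ) × E => h c (a q)) =ᶠ[𝓝 (0, y)] fun q => h c q.2 := by
    filter_upwards [A.Wo.mem_nhds (A.W0 y hy)] with q hq
    exact A.hinv c q hq
  have h2 : HasFDerivAt (fun q : (Fin m → ℝ) × E => h c (a q))
      ((fderiv ℝ (h c) y).comp (fderiv ℝ a (0, y))) (0, y) := by
    have h3 : HasFDerivAt (h c) (fderiv ℝ (h c) y) (a (0, y)) := by
      rw [A.a0 y hy]
      exact (A.hd c hy).hasFDerivAt
    exact h3.comp _ (A.ad (A.W0 y hy)).hasFDerivAt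
  have h4 : HasFDerivAt (fun q : (Fin m → ℝ) × E => h c q.2)
      ((fderiv ℝ (h c) y).comp (ContinuousLinearMap.snd ℝ (Fin m → ℝ) E)) (0, y) := by
    have h3 : HasFDerivAt (h c) (fderiv ℝ (h c) y) ((0, y) : (Fin m → ℝ) × E).2 :=
      (A.hd c hy).hasFDerivAt
    exact h3.comp _ hasFDerivAt_snd
  have h5 := (h4.congr_of_eventuallyEq h1).unique h2
  have h6 := DFunLike.congr_fun h5 (c', 0)
  simp only [ContinuousLinearMap.comp_apply, ContinuousLinearMap.coe_snd', map_zero] at h6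
  exact h6.symm

/-- the invariance of the derivatives -/
lemma Dat.inv2 {q : (Fin m → ℝ) × E} (hq : q ∈ W) : ∃ L : E →L[ℝ] E, ∀ c,
    fderiv ℝ (h c) (a q) = (fderiv ℝ (h c) q.2).comp L := by
  obtain ⟨h1, h2, h3, h4⟩ := A.aW q hq
  refine ⟨(fderiv ℝ a (-q.1, a q)).comp (ContinuousLinearMap.inr ℝ (Fin m → ℝ) E), fun c => ?_⟩
  have h5 : HasFDerivAt (fun z : E => a (-q.1, z))
      ((fderiv ℝ a (-q.1, a q)).comp (ContinuousLinearMap.inr ℝ (Fin m → ℝ) E)) (a q) := by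
    have h6 : HasFDerivAt (fun z : E => ((-q.1, z) : (Fin m → ℝ) × E))
        (ContinuousLinearMap.inr ℝ (Fin m → ℝ) E) (a q) := hasFDerivAt_prodMk_right _ _
    exact (A.ad h3).hasFDerivAt.comp _ h6
  have h6 : (fun z : E => h c (a (-q.1, z))) =ᶠ[𝓝 (a q)] h c := by
    have h7 : ContinuousAt (fun z : E => ((-q.1, z) : (Fin m → ℝ) × E)) (a q) := by fun_prop
    filter_upwards [h7.preimage_mem_nhds (A.Wo.mem_nhds h3)] with z hz
    exact A.hinv c _ hz
  have h7 : HasFDerivAt (fun z : E => h c (a (-q.1, z)))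
      ((fderiv ℝ (h c) q.2).comp
        ((fderiv ℝ a (-q.1, a q)).comp (ContinuousLinearMap.inr ℝ (Fin m → ℝ) E))) (a q) := by
    have h8 : HasFDerivAt (h c) (fderiv ℝ (h c) q.2) (a (-q.1, a q)) := by
      rw [h4]
      exact (A.hd c h1).hasFDerivAt
    exact h8.comp (a q) h5
  exact (h7.congr_of_eventuallyEq h6.symm).fderiv

/-- the generators are smooth -/
lemma Dat.Ysm (c : Fin m → ℝ) : ContDiffOn ℝ ∞ (Y a c) Ω := by
  have h1 : ContDiffOn ℝ ∞ (fderiv ℝ a) W := A.asm.fderiv_of_isOpen A.Wo (by simp)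
  have h2 : ContDiffOn ℝ ∞ (fun y : E => fderiv ℝ a (0, y)) Ω :=
    h1.comp (contDiff_const.prodMk contDiff_id).contDiffOn (fun y hy => A.W0 y hy)
  exact h2.clm_apply contDiffOn_const

/-- the second derivative at a critical point vanishes on the generators -/
lemma Dat.inv3 {c : Fin m → ℝ} {y : E} (hy : y ∈ Ω) (hc : fderiv ℝ (h c) y = 0) (c' : Fin m → ℝ)
    (u : E) : fderiv ℝ (fderiv ℝ (h c)) y u (Y a c' y) = 0 := by
  have h1 : HasFDerivAt (fderiv ℝ (h c)) (fderiv ℝ (fderiv ℝ (h c)) y) y :=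
    ((((A.hsm c).fderiv_of_isOpen A.Ωo (m := ∞) (by simp)).contDiffAt
      (A.Ωo.mem_nhds hy)).differentiableAt (by simp)).hasFDerivAt
  have h2 : HasFDerivAt (Y a c') (fderiv ℝ (Y a c') y) y :=
    (((A.Ysm c').contDiffAt (A.Ωo.mem_nhds hy)).differentiableAt (by simp)).hasFDerivAt
  have h3 := h1.clm_apply h2
  have h4 : (fun y => fderiv ℝ (h c) y (Y a c' y)) =ᶠ[𝓝 y] fun _ => 0 := by
    filter_upwards [A.Ωo.mem_nhds hy] with z hz
    exact A.inv1 c c' hz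
  have h5 := (h3.congr_of_eventuallyEq h4.symm).unique (hasFDerivAt_const (0 : ℝ) y)
  have h6 := DFunLike.congr_fun h5 u
  rw [hc] at h6
  simpa using h6

/-- the derivatives of the invariant functions -/
def dl (h : (Fin m → ℝ) →ₗ[ℝ] (E → ℝ)) (y : E) (hd : ∀ c, DifferentiableAt ℝ (h c) y) :
    (Fin m → ℝ) →ₗ[ℝ] (E →ₗ[ℝ] ℝ) where
  toFun c := (fderiv ℝ (h c) y).toLinearMap
  map_add' c c' := by
    rw [map_add, fderiv_add (hd c) (hd c')]
    rfl
  map_smul' r c := by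
    rw [map_smul, fderiv_const_smul (hd c) r]
    rfl

omit A in
lemma dl_apply (y : E) (hd : ∀ c, DifferentiableAt ℝ (h c) y) (c : Fin m → ℝ) (u : E) :
    dl h y hd c u = fderiv ℝ (h c) y u := rfl

/-- the rank of the derivatives -/
lemma Dat.rank {p : E} (hp : p ∈ Ω)
    (h5 : ∀ c, fderiv ℝ (h c) p = 0 → ∃ r : ℝ, Y a c p = r • Y a κ₀ p) :
    Module.finrank ℝ (LinearMap.range (dl h p fun c => A.hd c hp)) + 1 =
      Module.finrank ℝ (LinearMap.range (YL a p)) := by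
  set δ := dl h p fun c => A.hd c hp with hδ
  have hker : LinearMap.ker δ = LinearMap.ker (YL a p) ⊔ Submodule.span ℝ {κ₀} := by
    apply le_antisymm
    · intro c hc
      have h1 : fderiv ℝ (h c) p = 0 := ContinuousLinearMap.ext fun u => DFunLike.congr_fun hc u
      obtain ⟨r, hr⟩ := h5 c h1
      have h2 : c = (c - r • κ₀) + r • κ₀ := by rw [sub_add_cancel]
      rw [h2]
      refine Submodule.add_mem_sup ?_ (Submodule.smul_mem _ _ (Submodule.mem_span_singleton_self _))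
      rw [LinearMap.mem_ker, map_sub, map_smul, YL_apply, YL_apply, hr, sub_self]
    · refine sup_le ?_ ?_
      · intro c hc
        refine LinearMap.ext fun u => ?_
        exact DFunLike.congr_fun (A.con p hp c hc) u
      · rw [Submodule.span_singleton_le_iff_mem]
        refine LinearMap.ext fun u => ?_
        exact DFunLike.congr_fun (A.reeb p hp).1 u
  have hinf : LinearMap.ker (YL a p) ⊓ Submodule.span ℝ {κ₀} = ⊥ := by
    rw [eq_bot_iff]
    rintro c ⟨hc1, hc2⟩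
    obtain ⟨r, rfl⟩ := Submodule.mem_span_singleton.1 hc2
    have h1 : YL a p (r • κ₀) = 0 := hc1
    rw [map_smul, smul_eq_zero] at h1
    rcases h1 with h1 | h1
    · rw [h1, zero_smul]
      exact Submodule.zero_mem _
    · exact absurd h1 (A.reeb p hp).2
  have hκ : κ₀ ≠ 0 := by
    rintro rfl
    apply (A.reeb p hp).2
    exact (YL a p).map_zero
  have h1 := Submodule.finrank_sup_add_finrank_inf_eq (LinearMap.ker (YL a p))
    (Submodule.span ℝ {κ₀})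
  rw [hinf, ← hker, finrank_bot, finrank_span_singleton hκ] at h1
  have h2 := LinearMap.finrank_range_add_finrank_ker δ
  have h3 := LinearMap.finrank_range_add_finrank_ker (YL a p)
  omega

end dat

/-- jointly surjective functionals -/
lemma pi_surj {k : ℕ} {b : Fin k → (E →L[ℝ] ℝ)} (hb : LinearIndependent ℝ b) :
    Function.Surjective (fun u : E => fun j => b j u) := by
  classical
  let Φ : E →ₗ[ℝ] (Fin k → ℝ) := LinearMap.pi fun j => (b j).toLinearMap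
  have hΦ : ∀ u, Φ u = fun j => b j u := fun u => rfl
  have h1 : LinearMap.range Φ = ⊤ := by
    by_contra hne
    obtain ⟨f, hf0, hf⟩ := Submodule.exists_le_ker_of_lt_top _ (lt_top_iff_ne_top.2 hne)
    have h2 : ∀ v, f v = ∑ j, v j * f (Pi.single j 1) := by
      intro v
      conv_lhs => rw [pi_eq_sum_univ' v]
      rw [map_sum]
      refine Finset.sum_congr rfl fun j _ => ?_
      rw [map_smul, smul_eq_mul]
    have h3 : ∑ j, f (Pi.single j 1) • b j = 0 := by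
      refine ContinuousLinearMap.ext fun u => ?_
      have h4 : f (Φ u) = 0 := hf (LinearMap.mem_range_self Φ u)
      rw [h2] at h4
      rw [sum_apply, zero_apply, ← h4]
      refine Finset.sum_congr rfl fun j _ => ?_
      rw [smul_apply, smul_eq_mul, hΦ, mul_comm]
    have h5 := Fintype.linearIndependent_iff.1 hb _ h3
    apply hf0
    refine LinearMap.ext fun v => ?_
    rw [h2]
    simp [h5]
  intro v
  have h6 : v ∈ LinearMap.range Φ := by rw [h1]; trivial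
  obtain ⟨u, hu⟩ := h6
  exact ⟨u, hu⟩

/-- the functions `h (b j)` -/
def hv (h : (Fin m → ℝ) →ₗ[ℝ] (E → ℝ)) {k : ℕ} (b : Fin k → (Fin m → ℝ)) (z : E) : Fin k → ℝ :=
  fun j => h (b j) z

section dat2

variable {Ω : Set E} {W : Set ((Fin m → ℝ) × E)} {a : (Fin m → ℝ) × E → E}
    {h : (Fin m → ℝ) →ₗ[ℝ] (E → ℝ)} {κ₀ : Fin m → ℝ} (A : Dat Ω W a h κ₀)

include A

lemma Dat.hv_deriv {k : ℕ} (b : Fin k → (Fin m → ℝ)) {y : E} (hy : y ∈ Ω) :
    HasFDerivAt (hv h b) (ContinuousLinearMap.pi fun j => fderiv ℝ (h (b j)) y) y :=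
  hasFDerivAt_pi.2 fun j => (A.hd (b j) hy).hasFDerivAt

lemma Dat.hv_apply {k : ℕ} (b : Fin k → (Fin m → ℝ)) {y : E} (hy : y ∈ Ω) (u : E) (j : Fin k) :
    fderiv ℝ (hv h b) y u j = fderiv ℝ (h (b j)) y u := by
  rw [(A.hv_deriv b hy).fderiv]
  rfl

lemma Dat.hv_sm {k : ℕ} (b : Fin k → (Fin m → ℝ)) : ContDiffOn ℝ ∞ (hv h b) Ω :=
  contDiffOn_pi.2 fun j => A.hsm (b j)

lemma Dat.exists_b {p : E} (hp : p ∈ Ω)
    (h5 : ∀ c, fderiv ℝ (h c) p = 0 → ∃ r : ℝ, Y a c p = r • Y a κ₀ p) :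
    ∃ (k : ℕ) (b : Fin k → (Fin m → ℝ)), k + 1 = Module.finrank ℝ (LinearMap.range (YL a p)) ∧
      Function.Surjective (fderiv ℝ (hv h b) p) ∧
      ∀ u, fderiv ℝ (hv h b) p u = 0 → ∀ c, fderiv ℝ (h c) p u = 0 := by
  have hr := A.rank hp h5
  obtain ⟨δ, hδ⟩ : ∃ δ, δ = dl h p fun c => A.hd c hp := ⟨_, rfl⟩
  have hδa : ∀ c u, δ c u = fderiv ℝ (h c) p u := fun c u => by rw [hδ]; rfl
  rw [← hδ] at hr
  obtain ⟨𝔫, hn⟩ := Submodule.exists_isCompl (LinearMap.ker δ)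
  have hn1 := Submodule.finrank_add_eq_of_isCompl hn
  have hn2 := LinearMap.finrank_range_add_finrank_ker δ
  let β := Module.finBasis ℝ 𝔫
  have hsum : ∀ (g : Fin (Module.finrank ℝ 𝔫) → ℝ) (u : E),
      δ (∑ j, g j • (β j : Fin m → ℝ)) u = ∑ j, g j * fderiv ℝ (h (β j)) p u := by
    intro g u
    rw [map_sum, LinearMap.sum_apply]
    refine Finset.sum_congr rfl fun j _ => ?_
    rw [map_smul, LinearMap.smul_apply, hδa, smul_eq_mul]
  have hli : LinearIndependent ℝ fun j => fderiv ℝ (h (β j)) p := by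
    rw [Fintype.linearIndependent_iff]
    intro g hg
    have h2 : (∑ j, g j • (β j : Fin m → ℝ)) ∈ LinearMap.ker δ := by
      rw [LinearMap.mem_ker]
      refine LinearMap.ext fun u => ?_
      rw [hsum]
      have h3 := DFunLike.congr_fun hg u
      rw [sum_apply] at h3
      exact h3
    have h4 : (∑ j, g j • (β j : Fin m → ℝ)) ∈ 𝔫 :=
      Submodule.sum_mem _ fun j _ => Submodule.smul_mem _ _ (β j).2
    have h5 : (∑ j, g j • (β j : Fin m → ℝ)) = 0 := by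
      have := (Submodule.mem_inf.2 ⟨h2, h4⟩ : _ ∈ LinearMap.ker δ ⊓ 𝔫)
      rw [hn.inf_eq_bot] at this
      exact (Submodule.mem_bot ℝ).1 this
    have h6 := Fintype.linearIndependent_iff.1 β.linearIndependent g
    apply h6
    apply Subtype.ext
    rw [Submodule.coe_sum]
    exact h5
  refine ⟨_, fun j => (β j : Fin m → ℝ), ?_, ?_, ?_⟩
  · omega
  · intro v
    obtain ⟨u, hu⟩ := pi_surj hli v
    refine ⟨u, ?_⟩
    rw [← hu]
    funext j
    exact A.hv_apply _ hp u j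
  · intro u hu c
    have h2 : ∀ j, fderiv ℝ (h (β j)) p u = 0 := by
      intro j
      rw [← A.hv_apply (fun j => (β j : Fin m → ℝ)) hp u j, hu]
      rfl
    have h3 : c ∈ LinearMap.ker δ ⊔ 𝔫 := by
      rw [hn.sup_eq_top]
      trivial
    obtain ⟨c₁, hc₁, c₂, hc₂, rfl⟩ := Submodule.mem_sup.1 h3
    have h4 : c₂ = ∑ j, β.repr ⟨c₂, hc₂⟩ j • (β j : Fin m → ℝ) := by
      have h5 := congrArg (Subtype.val) (β.sum_repr ⟨c₂, hc₂⟩)
      rw [Submodule.coe_sum] at h5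
      exact h5.symm
    rw [← hδa, map_add, LinearMap.add_apply, LinearMap.mem_ker.1 hc₁, LinearMap.zero_apply, zero_add,
      h4, hsum]
    refine Finset.sum_eq_zero fun j _ => ?_
    rw [h2, mul_zero]

end dat2

/-! ### Projections to the kernels -/

section proj

variable {k : ℕ} {U : Set E} {H : E → E →L[ℝ] (Fin k → ℝ)} {ζ : (Fin k → ℝ) →L[ℝ] E}

/-- the projection to the kernel of `H y` along the range of `ζ` -/
def Pr (H : E → E →L[ℝ] (Fin k → ℝ)) (ζ : (Fin k → ℝ) →L[ℝ] E) (y : E) : E →L[ℝ] E :=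
  ContinuousLinearMap.id ℝ E - (ζ.comp ((Ring.inverse ((H y).comp ζ)).comp (H y)))

lemma Pr_apply (y u : E) : Pr H ζ y u = u - ζ (Ring.inverse ((H y).comp ζ) (H y u)) := rfl

lemma H_Pr {y : E} (hu : IsUnit ((H y).comp ζ)) (u : E) : H y (Pr H ζ y u) = 0 := by
  have h1 := Ring.mul_inverse_cancel ((H y).comp ζ) hu
  have h2 := DFunLike.congr_fun h1 (H y u)
  rw [Pr_apply, map_sub]
  exact sub_eq_zero.2 h2.symm

lemma Pr_ζ {y : E} (hu : IsUnit ((H y).comp ζ)) (s : Fin k → ℝ) : Pr H ζ y (ζ s) = 0 := by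
  have h1 := Ring.inverse_mul_cancel ((H y).comp ζ) hu
  have h2 := DFunLike.congr_fun h1 s
  rw [Pr_apply, sub_eq_zero]
  have h3 : Ring.inverse ((H y).comp ζ) (H y (ζ s)) = s := h2
  rw [h3]

lemma Pr_ker {y u : E} (hu : H y u = 0) : Pr H ζ y u = u := by
  rw [Pr_apply, hu, map_zero, map_zero, sub_zero]

lemma Pr_smooth (hH : ContDiffOn ℝ ∞ H U) (hu : ∀ y ∈ U, IsUnit ((H y).comp ζ)) :
    ContDiffOn ℝ ∞ (Pr H ζ) U := by
  have h1 : ContDiffOn ℝ ∞ (fun y => (H y).comp ζ) U := hH.clm_comp contDiffOn_const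
  have h2 : ContDiffOn ℝ ∞ (fun y => Ring.inverse ((H y).comp ζ)) U := by
    intro y hy
    obtain ⟨v, hv⟩ := hu y hy
    have h3 : ContDiffAt ℝ ∞ (Ring.inverse : ((Fin k → ℝ) →L[ℝ] (Fin k → ℝ)) → _)
        ((H y).comp ζ) := by
      rw [← hv]
      exact contDiffAt_ringInverse ℝ v
    exact h3.comp_contDiffWithinAt y (h1 y hy)
  exact contDiffOn_const.sub (contDiffOn_const.clm_comp (h2.clm_comp hH))

end proj

end Pool.Agent.J4H57.CI
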