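import Pool.Agent.J4H57.CI.Loc

/-!
# Project CI of helper20 (MP_e3ee0c_gt), job (NRM): the chart in the local model (helper57)
-/

open scoped Topology ContDiff
open Set

noncomputable section

namespace Pool.Agent.J4H57.CI

set_option linter.unusedSectionVars false

universe u

variable {E : Type u} [NormedAddCommGroup E] [NormedSpace ℝ E] [FiniteDimensional ℝ E] {m : ℕ}

/-- invertibility is open -/
lemma isOpen_unit {R : Type*} [NormedAddCommGroup R] [NormedSpace ℝ R] [CompleteSpace R] {U : Set E}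
    (hU : IsOpen U) {Q : E → R →L[ℝ] R} (hQ : ContinuousOn Q U) :
    IsOpen {y | y ∈ U ∧ IsUnit (Q y)} :=
  hQ.isOpen_inter_preimage hU Units.isOpen

section dat

variable {Ω : Set E} {W : Set ((Fin m → ℝ) × E)} {a : (Fin m → ℝ) × E → E}
    {h : (Fin m → ℝ) →ₗ[ℝ] (E → ℝ)} {κ₀ : Fin m → ℝ} (A : Dat Ω W a h κ₀)

include A

lemma Dat.H_apply {k : ℕ} (b : Fin k → (Fin m → ℝ)) {y : E} (hy : y ∈ Ω) (u : E) :
    fderiv ℝ (hv h b) y u = fun j => fderiv ℝ (h (b j)) y u :=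
  funext fun j => A.hv_apply b hy u j

lemma Dat.H_sm {k : ℕ} (b : Fin k → (Fin m → ℝ)) : ContDiffOn ℝ ∞ (fderiv ℝ (hv h b)) Ω :=
  (A.hv_sm b).fderiv_of_isOpen A.Ωo (by simp)

lemma Dat.H_Y {k : ℕ} (b : Fin k → (Fin m → ℝ)) {y : E} (hy : y ∈ Ω) (c : Fin m → ℝ) :
    fderiv ℝ (hv h b) y (Y a c y) = 0 := by
  rw [A.H_apply b hy]
  funext j
  exact A.inv1 _ c hy

/-- the curve in the direction `c` -/
lemma Dat.curve {y : E} (hy : y ∈ Ω) (c : Fin m → ℝ) :
    HasDerivAt (fun τ : ℝ => a (τ • c, y)) (Y a c y) 0 ∧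
      ∀ᶠ τ : ℝ in 𝓝 0, (τ • c, y) ∈ W := by
  have h1 : HasDerivAt (fun τ : ℝ => ((τ • c, y) : (Fin m → ℝ) × E)) (c, 0) 0 := by
    have := ((hasDerivAt_id (0 : ℝ)).smul_const c).prodMk (hasDerivAt_const (0 : ℝ) y)
    simpa using this
  have h0 : (((0 : ℝ) • c, y) : (Fin m → ℝ) × E) = (0, y) := by rw [zero_smul]
  have h2 : HasFDerivAt a (fderiv ℝ a (0, y)) (((0 : ℝ) • c, y) : (Fin m → ℝ) × E) := by
    rw [h0]
    exact (A.ad (A.W0 y hy)).hasFDerivAt
  refine ⟨h2.comp_hasDerivAt (0 : ℝ) h1, ?_⟩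
  have h3 := h1.continuousAt
  apply h3.preimage_mem_nhds
  rw [h0]
  exact A.Wo.mem_nhds (A.W0 y hy)

/-- the derivative of the function `F` vanishes on the generators -/
lemma Dat.F_inv {G : Type*} [NormedAddCommGroup G] [NormedSpace ℝ G] {F : E → G} {U : Set E}
    (hU : IsOpen U) {y : E} (hy : y ∈ Ω) (hyU : y ∈ U) (hF : DifferentiableAt ℝ F y)
    (h0 : ∀ q ∈ W, q.2 = y → a q ∈ U → F (a q) = 0) (c : Fin m → ℝ) :
    fderiv ℝ F y (Y a c y) = 0 := by
  obtain ⟨h1, h2⟩ := A.curve hy c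
  have e0 : a ((0 : ℝ) • c, y) = y := by rw [zero_smul, A.a0 y hy]
  have h3 : HasFDerivAt F (fderiv ℝ F y) (a ((0 : ℝ) • c, y)) := by
    rw [e0]
    exact hF.hasFDerivAt
  have h4 := h3.comp_hasDerivAt (0 : ℝ) h1
  have h5 : ∀ᶠ τ : ℝ in 𝓝 0, a (τ • c, y) ∈ U := by
    apply h1.continuousAt.preimage_mem_nhds
    rw [e0]
    exact hU.mem_nhds hyU
  have h6 : (F ∘ fun τ : ℝ => a (τ • c, y)) =ᶠ[𝓝 0] fun _ => 0 := by
    filter_upwards [h2, h5] with τ hτ1 hτ2
    exact h0 _ hτ1 rfl hτ2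
  exact (h4.congr_of_eventuallyEq h6.symm).unique (hasDerivAt_const (0 : ℝ) (0 : G))

/-- points where the derivatives are dependent -/
lemma Dat.dep {k : ℕ} {b : Fin k → (Fin m → ℝ)} {ζ : (Fin k → ℝ) →L[ℝ] E} {y : E} (hy : y ∈ Ω)
    {c₀ : Fin m → ℝ}
    (h1 : ∀ u, fderiv ℝ (h c₀) y (Pr (fderiv ℝ (hv h b)) ζ y u) = 0)
    {q : (Fin m → ℝ) × E} (hq : q ∈ W) (hqy : q.2 = y)
    (hu' : IsUnit ((fderiv ℝ (hv h b) (a q)).comp ζ)) (u : E) :
    fderiv ℝ (h c₀) (a q) (Pr (fderiv ℝ (hv h b)) ζ (a q) u) = 0 := by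
  obtain ⟨L, hL⟩ := A.inv2 hq
  rw [hqy] at hL
  have haq : a q ∈ Ω := (A.aW q hq).2.1
  have h2 : ∀ v, fderiv ℝ (h c₀) y v = fderiv ℝ (h c₀) y
      (ζ (Ring.inverse ((fderiv ℝ (hv h b) y).comp ζ) (fderiv ℝ (hv h b) y v))) := by
    intro v
    have := h1 v
    rw [Pr_apply, map_sub] at this
    exact sub_eq_zero.1 this
  have h3 : ∀ v, fderiv ℝ (hv h b) (a q) v = fderiv ℝ (hv h b) y (L v) := by
    intro v
    rw [A.H_apply b haq, A.H_apply b hy]
    funext j
    rw [hL]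
    rfl
  have h4 : fderiv ℝ (h c₀) (a q) (Pr (fderiv ℝ (hv h b)) ζ (a q) u) =
      fderiv ℝ (h c₀) y (L (Pr (fderiv ℝ (hv h b)) ζ (a q) u)) := by
    rw [hL]
    rfl
  rw [h4, h2, ← h3, H_Pr hu', map_zero, map_zero, map_zero]

/-- the rank is large where the derivatives are independent -/
lemma Dat.large {k : ℕ} {b : Fin k → (Fin m → ℝ)} {ζ : (Fin k → ℝ) →L[ℝ] E} {y : E} (hy : y ∈ Ω)
    (hu : IsUnit ((fderiv ℝ (hv h b) y).comp ζ)) {c₀ : Fin m → ℝ} {v : E}
    (hv0 : fderiv ℝ (hv h b) y v = 0) (hv1 : fderiv ℝ (h c₀) y v ≠ 0) :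
    k + 2 ≤ Module.finrank ℝ (LinearMap.range (YL a y)) := by
  let C : ((Fin k → ℝ) × ℝ × ℝ) →ₗ[ℝ] (Fin m → ℝ) :=
    { toFun := fun s => (∑ j, s.1 j • b j) + s.2.1 • c₀ + s.2.2 • κ₀
      map_add' := by
        intro s s'
        simp only [Prod.fst_add, Prod.snd_add, Pi.add_apply, add_smul, Finset.sum_add_distrib]
        abel
      map_smul' := by
        intro r s
        simp only [Prod.smul_fst, Prod.smul_snd, Pi.smul_apply, smul_eq_mul, mul_smul,
          RingHom.id_apply, smul_add, Finset.smul_sum] }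
  have hC : ∀ s, C s = (∑ j, s.1 j • b j) + s.2.1 • c₀ + s.2.2 • κ₀ := fun s => rfl
  have hinj : Function.Injective ((YL a y).comp C) := by
    rw [← LinearMap.ker_eq_bot, eq_bot_iff]
    intro s hs
    have hs0 : Y a (C s) y = 0 := hs
    have h1 : ∀ w, (∑ j, s.1 j * fderiv ℝ (h (b j)) y w) + s.2.1 * fderiv ℝ (h c₀) y w = 0 := by
      intro w
      have h2 := A.con y hy _ hs0
      have h3 : dl h y (fun c => A.hd c hy) (C s) w = 0 := by
        rw [dl_apply, h2]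
        rfl
      rw [hC, map_add, map_add, map_sum, map_smul, map_smul] at h3
      simp only [LinearMap.add_apply, LinearMap.sum_apply, map_smul, LinearMap.smul_apply,
        smul_eq_mul] at h3
      rw [dl_apply, dl_apply, (A.reeb y hy).1] at h3
      simp only [zero_apply, mul_zero, add_zero] at h3
      rw [← h3]
      congr 1
    have h4 : ∀ j, fderiv ℝ (h (b j)) y v = 0 := by
      intro j
      rw [← A.hv_apply b hy v j, hv0]
      rfl
    have h5 : s.2.1 = 0 := by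
      have h6 := h1 v
      simp only [h4, mul_zero, Finset.sum_const_zero, zero_add] at h6
      exact (mul_eq_zero.1 h6).resolve_right hv1
    have h7 : s.1 = 0 := by
      funext i
      have h8 := h1 (ζ (Ring.inverse ((fderiv ℝ (hv h b) y).comp ζ) (Pi.single i 1)))
      have h9 : fderiv ℝ (hv h b) y
          (ζ (Ring.inverse ((fderiv ℝ (hv h b) y).comp ζ) (Pi.single i 1))) = Pi.single i 1 :=
        DFunLike.congr_fun (Ring.mul_inverse_cancel ((fderiv ℝ (hv h b) y).comp ζ) hu)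
          (Pi.single i 1 : Fin k → ℝ)
      have h10 : ∀ j, fderiv ℝ (h (b j)) y
          (ζ (Ring.inverse ((fderiv ℝ (hv h b) y).comp ζ) (Pi.single i 1))) =
          (Pi.single i 1 : Fin k → ℝ) j := by
        intro j
        rw [← A.hv_apply b hy _ j, h9]
      rw [h5, zero_mul, add_zero] at h8
      simp only [h10] at h8
      rw [Finset.sum_eq_single i (fun j _ hj => by rw [Pi.single_eq_of_ne hj, mul_zero])
        (fun hi => absurd (Finset.mem_univ i) hi), Pi.single_eq_same, mul_one] at h8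
      exact h8
    have h11 : s.2.2 = 0 := by
      rw [hC, h7, h5] at hs0
      have h12 : YL a y (s.2.2 • κ₀) = 0 := by
        have : (∑ j, (0 : Fin k → ℝ) j • b j) + (0 : ℝ) • c₀ + s.2.2 • κ₀ = s.2.2 • κ₀ := by
          simp
        rw [this] at hs0
        exact hs0
      rw [map_smul, smul_eq_zero] at h12
      exact h12.resolve_right (A.reeb y hy).2
    rw [Submodule.mem_bot]
    exact Prod.ext h7 (Prod.ext h5 h11)
  have h1 := LinearMap.finrank_range_of_inj hinj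
  have h2 : LinearMap.range ((YL a y).comp C) ≤ LinearMap.range (YL a y) :=
    LinearMap.range_comp_le_range _ _
  have h3 := Submodule.finrank_mono h2
  rw [h1] at h3
  have h4 : Module.finrank ℝ ((Fin k → ℝ) × ℝ × ℝ) = k + 2 := by
    rw [Module.finrank_prod, Module.finrank_prod, Module.finrank_fin_fun, Module.finrank_self]
  omega

end dat

end Pool.Agent.J4H57.CI
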