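import Pool.Agent.J4H57.CI.Loc2

/-!
# Project CI of helper20 (MP_e3ee0c_gt), job (NRM): the main theorem in the local model (helper57)
-/

open scoped Topology ContDiff
open Set

noncomputable section

namespace Pool.Agent.J4H57.CI

set_option linter.unusedSectionVars false

universe u

variable {E : Type u} [NormedAddCommGroup E] [NormedSpace ℝ E] [FiniteDimensional ℝ E] {m : ℕ}

/-- a right inverse -/
lemma exists_right {F G : Type*} [NormedAddCommGroup F] [NormedSpace ℝ F] [NormedAddCommGroup G]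
    [NormedSpace ℝ G] [FiniteDimensional ℝ G] {f : F →L[ℝ] G} (hf : Function.Surjective f) :
    ∃ g : G →L[ℝ] F, f.comp g = ContinuousLinearMap.id ℝ G := by
  obtain ⟨g, hg⟩ := f.toLinearMap.exists_rightInverse_of_surjective (LinearMap.range_eq_top.2 hf)
  refine ⟨LinearMap.toContinuousLinearMap g, ContinuousLinearMap.ext fun x => ?_⟩
  exact DFunLike.congr_fun hg x

section dat

variable {Ω : Set E} {W : Set ((Fin m → ℝ) × E)} {a : (Fin m → ℝ) × E → E}
    {h : (Fin m → ℝ) →ₗ[ℝ] (E → ℝ)} {κ₀ : Fin m → ℝ} (A : Dat Ω W a h κ₀)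

include A

/-- the chart with values in `(O × ℝ^k) × T*` -/
theorem Dat.main0 {p : E} (hp : p ∈ Ω) {d : ℕ}
    (hd : Module.finrank ℝ (LinearMap.range (YL a p)) = d)
    (h5 : ∀ c, fderiv ℝ (h c) p = 0 → ∃ r : ℝ, Y a c p = r • Y a κ₀ p)
    (h7 : ∃ c, Y a c p = 0 ∧ ∀ u, (∀ c', fderiv ℝ (h c') p u = 0) →
      (∀ v, (∀ c', fderiv ℝ (h c') p v = 0) → fderiv ℝ (fderiv ℝ (h c)) p u v = 0) →
      ∃ c', Y a c' p = u) :
    ∃ (k r : ℕ) (_ : k + 1 = d) (O : Submodule ℝ E)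
      (φ : OpenPartialHomeomorph E ((O × (Fin k → ℝ)) × (Fin r → ℝ))),
      Module.finrank ℝ O = d ∧ Module.finrank ℝ E = (d + k) + r ∧
      p ∈ φ.source ∧ φ.source ⊆ Ω ∧ ContDiffOn ℝ ∞ φ φ.source ∧
      ContDiffOn ℝ ∞ φ.symm φ.target ∧
      (∀ y ∈ φ.source, Module.finrank ℝ (LinearMap.range (YL a y)) ≤ d ↔ (φ y).2 = 0) ∧
      ∀ u : E, (fderiv ℝ φ p u).2 = 0 → (∀ c, fderiv ℝ (h c) p u = 0) → ∃ c, Y a c p = u := by
  obtain ⟨k, b, hk, hsurj, hker⟩ := A.exists_b hp h5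
  rw [hd] at hk
  obtain ⟨H, hH⟩ : ∃ H, H = fderiv ℝ (hv h b) := ⟨_, rfl⟩
  have hHsm : ContDiffOn ℝ ∞ H Ω := by rw [hH]; exact A.H_sm b
  have hHY : ∀ y ∈ Ω, ∀ c, H y (Y a c y) = 0 := fun y hy c => by rw [hH]; exact A.H_Y b hy c
  have hHker : ∀ u, H p u = 0 ↔ ∀ c, fderiv ℝ (h c) p u = 0 := by
    intro u
    rw [hH]
    refine ⟨hker u, fun hu => ?_⟩
    rw [A.H_apply b hp]
    funext j
    exact hu _
  obtain ⟨ζ, hζ⟩ := exists_right hsurj
  rw [← hH] at hζ hsurj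
  -- the first open set
  obtain ⟨U₁, hU₁⟩ : ∃ U₁ : Set E, U₁ = {y | y ∈ Ω ∧ IsUnit ((H y).comp ζ)} := ⟨_, rfl⟩
  have hU₁o : IsOpen U₁ := by
    rw [hU₁]
    exact isOpen_unit A.Ωo (hHsm.continuousOn.clm_comp continuousOn_const)
  have hU₁s : U₁ ⊆ Ω := fun y hy => by rw [hU₁] at hy; exact hy.1
  have hU₁u : ∀ y ∈ U₁, IsUnit ((H y).comp ζ) := fun y hy => by rw [hU₁] at hy; exact hy.2
  have hpU₁ : p ∈ U₁ := by
    rw [hU₁]
    refine ⟨hp, ?_⟩
    rw [hζ]
    exact isUnit_one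
  have hPsm : ContDiffOn ℝ ∞ (Pr H ζ) U₁ := Pr_smooth (hHsm.mono hU₁s) hU₁u
  -- the subspaces
  obtain ⟨O, hO⟩ : ∃ O : Submodule ℝ E, O = LinearMap.range (YL a p) := ⟨_, rfl⟩
  obtain ⟨K, hK⟩ : ∃ K : Submodule ℝ E, K = LinearMap.ker (H p).toLinearMap := ⟨_, rfl⟩
  have hKm : ∀ u, u ∈ K ↔ H p u = 0 := fun u => by rw [hK]; rfl
  obtain ⟨T', hT'⟩ := Submodule.exists_isCompl O
  obtain ⟨T, hT⟩ : ∃ T : Submodule ℝ E, T = T' ⊓ K := ⟨_, rfl⟩
  have hTT' : ∀ t ∈ T, t ∈ T' := fun t ht => by rw [hT] at ht; exact ht.1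
  have hTK : ∀ t ∈ T, H p t = 0 := fun t ht => by rw [hT] at ht; exact (hKm t).1 ht.2
  have hOK : O ≤ K := by
    rw [hO]
    rintro _ ⟨c, rfl⟩
    rw [hKm]
    exact hHY p hp c
  have hsup : O ⊔ T = K := by
    rw [hT, ← sup_inf_assoc_of_le T' hOK, hT'.sup_eq_top, top_inf_eq]
  have hinf : O ⊓ T = ⊥ := by
    rw [hT, ← inf_assoc, hT'.inf_eq_bot, bot_inf_eq]
  -- the projection
  obtain ⟨π, hπ⟩ : ∃ π : E →L[ℝ] O,
      π = LinearMap.toContinuousLinearMap (Submodule.projectionOnto O T' hT') := ⟨_, rfl⟩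
  have hπ0 : ∀ u, π u = 0 ↔ u ∈ T' := fun u => by
    rw [hπ]
    exact Submodule.projectionOnto_apply_eq_zero_iff hT'
  -- the function `F`
  obtain ⟨c₀, hc₀, hnd⟩ := h7
  have hg0 : fderiv ℝ (h c₀) p = 0 := A.con p hp c₀ hc₀
  have hgsm : ContDiffOn ℝ ∞ (fderiv ℝ (h c₀)) Ω := (A.hsm c₀).fderiv_of_isOpen A.Ωo (by simp)
  obtain ⟨r, hrT⟩ : ∃ r, r = Module.finrank ℝ T := ⟨_, rfl⟩
  let τ : Module.Basis (Fin r) ℝ T := Module.finBasisOfFinrankEq ℝ T hrT.symm
  have hτ : ∀ t : T, (t : E) = ∑ i, τ.repr t i • (τ i : E) := by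
    intro t
    have h1 := congrArg (Subtype.val) (τ.sum_repr t)
    rw [Submodule.coe_sum] at h1
    exact h1.symm
  obtain ⟨F, hF⟩ : ∃ F : E → (Fin r → ℝ),
      F = fun y i => fderiv ℝ (h c₀) y (Pr H ζ y (τ i : E)) := ⟨_, rfl⟩
  have hFa : ∀ y, F y = 0 → ∀ t : T, fderiv ℝ (h c₀) y (Pr H ζ y t) = 0 := by
    intro y hy t
    rw [hτ t, map_sum, map_sum]
    refine Finset.sum_eq_zero fun i _ => ?_
    have h1 : fderiv ℝ (h c₀) y (Pr H ζ y (τ i : E)) = 0 := by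
      have := congrFun hy i
      rw [hF] at this
      exact this
    rw [map_smul, map_smul, h1, smul_zero]
  have hFsm : ContDiffOn ℝ ∞ F U₁ := by
    rw [hF]
    exact contDiffOn_pi.2 fun i => (hgsm.mono hU₁s).clm_apply (hPsm.clm_apply contDiffOn_const)
  have hFd0 : ∀ y ∈ U₁, DifferentiableAt ℝ F y := fun y hy =>
    (hFsm.contDiffAt (hU₁o.mem_nhds hy)).differentiableAt (by simp)
  obtain ⟨F', hF'1, hF'2⟩ : ∃ F' : E →L[ℝ] (Fin r → ℝ), HasFDerivAt F F' p ∧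
      ∀ u i, F' u i = fderiv ℝ (fderiv ℝ (h c₀)) p u (τ i) := by
    have h1 : HasFDerivAt (fderiv ℝ (h c₀)) (fderiv ℝ (fderiv ℝ (h c₀)) p) p :=
      ((hgsm.contDiffAt (A.Ωo.mem_nhds hp)).differentiableAt (by simp)).hasFDerivAt
    have h4 : ∀ i, HasFDerivAt (fun y => fderiv ℝ (h c₀) y (Pr H ζ y (τ i : E)))
        ((ContinuousLinearMap.apply ℝ ℝ (τ i : E)).comp (fderiv ℝ (fderiv ℝ (h c₀)) p)) p := by
      intro i
      have h2 : HasFDerivAt (fun y => Pr H ζ y (τ i : E))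
          (fderiv ℝ (fun y => Pr H ζ y (τ i : E)) p) p := by
        have h3 : ContDiffOn ℝ ∞ (fun y => Pr H ζ y (τ i : E)) U₁ :=
          hPsm.clm_apply contDiffOn_const
        exact ((h3.contDiffAt (hU₁o.mem_nhds hpU₁)).differentiableAt (by simp)).hasFDerivAt
      have h3 := h1.clm_apply h2
      refine h3.congr_fderiv ?_
      have e1 : Pr H ζ p (τ i : E) = τ i := Pr_ker (hTK _ (τ i).2)
      refine ContinuousLinearMap.ext fun u => ?_
      rw [hg0]
      simp [e1]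
    refine ⟨ContinuousLinearMap.pi fun i =>
      (ContinuousLinearMap.apply ℝ ℝ (τ i : E)).comp (fderiv ℝ (fderiv ℝ (h c₀)) p), ?_, ?_⟩
    · rw [hF]
      exact hasFDerivAt_pi.2 h4
    · intro u i
      rfl
  -- the chart
  obtain ⟨Ξ, hΞ⟩ : ∃ Ξ : E → (O × (Fin k → ℝ)) × (Fin r → ℝ),
      Ξ = fun y => ((π y, hv h b y), F y) := ⟨_, rfl⟩
  have hΞsm : ContDiffOn ℝ ∞ Ξ U₁ := by
    rw [hΞ]
    exact (π.contDiff.contDiffOn.prodMk ((A.hv_sm b).mono hU₁s)).prodMk hFsm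
  have hΞd : HasFDerivAt Ξ ((π.prod (H p)).prod F') p := by
    rw [hΞ]
    have h1 : HasFDerivAt (hv h b) (H p) p := by
      rw [hH]
      exact (A.hv_deriv b hp).differentiableAt.hasFDerivAt
    exact (π.hasFDerivAt.prodMk h1).prodMk hF'1
  have hnull : ∀ u, u ∈ K → F' u = 0 → ∃ c, Y a c p = u := by
    intro u hu hFu
    refine hnd u ((hHker u).1 ((hKm u).1 hu)) fun v hv => ?_
    have hv1 : v ∈ O ⊔ T := by
      rw [hsup, hKm, hHker]
      exact hv
    obtain ⟨o, ho, t, ht, rfl⟩ := Submodule.mem_sup.1 hv1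
    rw [hO] at ho
    obtain ⟨c', rfl⟩ := ho
    rw [map_add, YL_apply, A.inv3 hp hg0 c' u, zero_add]
    have h1 := hτ ⟨t, ht⟩
    rw [show ((⟨t, ht⟩ : T) : E) = t from rfl] at h1
    rw [h1, map_sum]
    refine Finset.sum_eq_zero fun i _ => ?_
    rw [map_smul, ← hF'2 u i, hFu, Pi.zero_apply, smul_zero]
  have hinj : Function.Injective ((π.prod (H p)).prod F') := by
    rw [← ContinuousLinearMap.coe_coe, ← LinearMap.ker_eq_bot, eq_bot_iff]
    intro u hu
    have h0 : ((π u, H p u), F' u) = 0 := hu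
    obtain ⟨h0a, h0b⟩ := Prod.ext_iff.1 h0
    obtain ⟨h0c, h0d⟩ := Prod.ext_iff.1 h0a
    have h1 : π u = 0 := h0c
    have h2 : H p u = 0 := h0d
    have h3 : F' u = 0 := h0b
    obtain ⟨c, hc⟩ := hnull u ((hKm u).2 h2) h3
    have h4 : u ∈ O := by
      rw [hO]
      exact ⟨c, hc⟩
    have h5 : u ∈ O ⊓ T' := ⟨h4, (hπ0 u).1 h1⟩
    rw [hT'.inf_eq_bot] at h5
    exact h5
  -- dimensions
  have hfO : Module.finrank ℝ O = d := by rw [hO, hd]
  have hfK : Module.finrank ℝ K = Module.finrank ℝ O + Module.finrank ℝ T := by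
    have h1 := Submodule.finrank_sup_add_finrank_inf_eq O T
    rw [hsup, hinf, finrank_bot, add_zero] at h1
    exact h1
  have hfE : Module.finrank ℝ E = k + Module.finrank ℝ K := by
    have h1 := LinearMap.finrank_range_add_finrank_ker (H p).toLinearMap
    rw [← hK, LinearMap.range_eq_top.2 hsurj, finrank_top, Module.finrank_fin_fun] at h1
    exact h1.symm
  have hfE' : Module.finrank ℝ E = (d + k) + r := by
    rw [hrT, hfE, hfK, hfO]
    ring
  have hfG : Module.finrank ℝ E = Module.finrank ℝ ((O × (Fin k → ℝ)) × (Fin r → ℝ)) := by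
    rw [Module.finrank_prod, Module.finrank_prod, Module.finrank_fin_fun, Module.finrank_fin_fun,
      hfO, hfE']
  let D₀ := LinearMap.linearEquivOfInjective ((π.prod (H p)).prod F').toLinearMap hinj hfG
  let D : E ≃L[ℝ] ((O × (Fin k → ℝ)) × (Fin r → ℝ)) := D₀.toContinuousLinearEquiv
  have hD : fderiv ℝ Ξ p = (D : E →L[ℝ] _) := by
    rw [hΞd.fderiv]
    refine ContinuousLinearMap.ext fun u => ?_
    exact (LinearMap.linearEquivOfInjective_apply (hf := hinj) (hdim := hfG) (x := u)).symm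
  -- the second open set
  obtain ⟨Θ, hΘ⟩ : ∃ Θ : E → ((((Fin m → ℝ) × T) × (Fin k → ℝ)) →L[ℝ] E),
      Θ = fun y => (((fderiv ℝ a (0, y)).comp (ContinuousLinearMap.inl ℝ (Fin m → ℝ) E)).coprod
        T.subtypeL).coprod ζ := ⟨_, rfl⟩
  have hΘa : ∀ y c (t : T) s, Θ y ((c, t), s) = Y a c y + t + ζ s := by
    intro y c t s
    rw [hΘ]
    rfl
  have hΘc : ContinuousOn Θ Ω := by
    rw [hΘ]
    have h1 : ContinuousOn (fun y : E => fderiv ℝ a (0, y)) Ω := by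
      have h2 : ContinuousOn (fderiv ℝ a) W := A.asm.continuousOn_fderiv_of_isOpen A.Wo (by simp)
      exact h2.comp (by fun_prop) (fun y hy => A.W0 y hy)
    have h3 : ContinuousOn (fun y : E => (fderiv ℝ a (0, y)).comp
        (ContinuousLinearMap.inl ℝ (Fin m → ℝ) E)) Ω := h1.clm_comp continuousOn_const
    have h4 : (fun y : E => (((fderiv ℝ a (0, y)).comp
        (ContinuousLinearMap.inl ℝ (Fin m → ℝ) E)).coprod T.subtypeL).coprod ζ) =
        fun y => ((fderiv ℝ a (0, y)).comp (ContinuousLinearMap.inl ℝ (Fin m → ℝ) E)).comp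
          ((ContinuousLinearMap.fst ℝ (Fin m → ℝ) T).comp
            (ContinuousLinearMap.fst ℝ ((Fin m → ℝ) × T) (Fin k → ℝ))) +
          ((T.subtypeL.comp (ContinuousLinearMap.snd ℝ (Fin m → ℝ) T)).comp
            (ContinuousLinearMap.fst ℝ ((Fin m → ℝ) × T) (Fin k → ℝ)) +
          ζ.comp (ContinuousLinearMap.snd ℝ ((Fin m → ℝ) × T) (Fin k → ℝ))) := by
      funext y
      refine ContinuousLinearMap.ext fun q => ?_
      obtain ⟨⟨c, t⟩, s⟩ := q
      show Y a c y + (t : E) + ζ s = Y a c y + ((t : E) + ζ s)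
      rw [add_assoc]
    rw [h4]
    exact (h3.clm_comp continuousOn_const).add continuousOn_const
  have hΘs : Function.Surjective (Θ p) := by
    intro u
    have h1 : u - ζ (H p u) ∈ O ⊔ T := by
      rw [hsup, hKm, map_sub]
      have h2 : H p (ζ (H p u)) = H p u := DFunLike.congr_fun hζ (H p u)
      rw [h2, sub_self]
    obtain ⟨o, ho, t, ht, hot⟩ := Submodule.mem_sup.1 h1
    rw [hO] at ho
    obtain ⟨c, rfl⟩ := ho
    refine ⟨((c, ⟨t, ht⟩), H p u), ?_⟩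
    rw [hΘa]
    show YL a p c + t + ζ (H p u) = u
    rw [hot, sub_add_cancel]
  obtain ⟨Θi, hΘi⟩ := exists_right hΘs
  obtain ⟨U₂, hU₂⟩ : ∃ U₂ : Set E, U₂ = {y | y ∈ U₁ ∧ IsUnit ((Θ y).comp Θi)} := ⟨_, rfl⟩
  have hU₂o : IsOpen U₂ := by
    rw [hU₂]
    exact isOpen_unit hU₁o ((hΘc.mono hU₁s).clm_comp continuousOn_const)
  have hU₂s : U₂ ⊆ U₁ := fun y hy => by rw [hU₂] at hy; exact hy.1
  have hU₂t : ∀ y ∈ U₂, Function.Surjective (Θ y) := by
    intro y hy u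
    rw [hU₂] at hy
    have h1 := Ring.mul_inverse_cancel ((Θ y).comp Θi) hy.2
    exact ⟨Θi (Ring.inverse ((Θ y).comp Θi) u), DFunLike.congr_fun h1 u⟩
  have hpU₂ : p ∈ U₂ := by
    rw [hU₂]
    refine ⟨hpU₁, ?_⟩
    rw [hΘi]
    exact isUnit_one
  obtain ⟨φ, hφ1, hφ2, hφ3, hφ4, hφ5⟩ := ift hU₂o hpU₂ (hΞsm.mono hU₂s) D hD
  have hφe : (φ : E → _) = Ξ := funext hφ3
  have hΞy : ∀ y ∈ U₁, HasFDerivAt Ξ ((π.prod (H y)).prod (fderiv ℝ F y)) y := by
    intro y hy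
    rw [hΞ]
    have h1 : HasFDerivAt (hv h b) (H y) y := by
      rw [hH]
      exact (A.hv_deriv b (hU₁s hy)).differentiableAt.hasFDerivAt
    exact (π.hasFDerivAt.prodMk h1).prodMk (hFd0 y hy).hasFDerivAt
  refine ⟨k, r, hk, O, φ, hfO, hfE', hφ1, hφ2.trans (hU₂s.trans hU₁s), ?_, hφ5, ?_, ?_⟩
  · rw [hφe]
    exact hΞsm.mono (hφ2.trans hU₂s)
  · intro y hy
    have hy2 : y ∈ U₂ := hφ2 hy
    have hy1 : y ∈ U₁ := hU₂s hy2
    have hy0 : y ∈ Ω := hU₁s hy1
    have e1 : (φ y).2 = F y := by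
      rw [hφ3, hΞ]
    rw [e1]
    constructor
    · intro hr
      by_contra hne
      obtain ⟨i, ht⟩ : ∃ i, F y i ≠ 0 := by
        by_contra hcon
        push Not at hcon
        exact hne (funext hcon)
      rw [hF] at ht
      have h1 := A.large (b := b) (ζ := ζ) hy0 (by rw [← hH]; exact hU₁u y hy1) (c₀ := c₀)
        (v := Pr H ζ y (τ i)) (by rw [← hH]; exact H_Pr (hU₁u y hy1) _) ht
      omega
    · intro hF0
      -- `F = 0` implies dependence
      have hdep : ∀ u, fderiv ℝ (h c₀) y (Pr H ζ y u) = 0 := by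
        intro u
        obtain ⟨⟨⟨c, t⟩, s⟩, rfl⟩ := hU₂t y hy2 u
        have e2 : Pr H ζ y (Θ y ((c, t), s)) = Y a c y + Pr H ζ y t := by
          rw [hΘa, map_add, map_add, Pr_ker (hHY y hy0 c), Pr_ζ (hU₁u y hy1), add_zero]
        rw [e2, map_add, A.inv1 c₀ c hy0, hFa y hF0 t, add_zero]
      have hFd : DifferentiableAt ℝ F y := hFd0 y hy1
      have hzero : ∀ q ∈ W, q.2 = y → a q ∈ U₁ → F (a q) = 0 := by
        intro q hq hqy hqU
        funext i
        have h1 := A.dep (b := b) (ζ := ζ) hy0 (c₀ := c₀) (by rw [← hH]; exact hdep) hq hqy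
          (by rw [← hH]; exact hU₁u _ hqU) (τ i : E)
        rw [← hH] at h1
        rw [hF]
        exact h1
      have hFY : ∀ c, fderiv ℝ F y (Y a c y) = 0 := fun c =>
        A.F_inv hU₁o hy0 hy1 hFd hzero c
      -- the projection is injective on the orbit
      obtain ⟨L, hL⟩ := hφ4 y hy
      rw [(hΞy y hy1).fderiv] at hL
      have hinj2 : Function.Injective (π.toLinearMap.comp (LinearMap.range (YL a y)).subtype) := by
        rw [← LinearMap.ker_eq_bot, eq_bot_iff]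
        intro v hv
        obtain ⟨v, c, rfl⟩ := v
        have h1 : π (Y a c y) = 0 := hv
        have h2 : L (Y a c y) = 0 := by
          have h3 : (L : E →L[ℝ] _) (Y a c y) = ((π.prod (H y)).prod (fderiv ℝ F y)) (Y a c y) := by
            rw [hL]
          have h4 : ((π.prod (H y)).prod (fderiv ℝ F y)) (Y a c y) =
              ((π (Y a c y), H y (Y a c y)), fderiv ℝ F y (Y a c y)) := rfl
          rw [h4, h1, hHY y hy0 c, hFY c] at h3
          exact h3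
        have h3 : Y a c y = 0 := by
          have := (map_eq_zero_iff L L.injective).1 h2
          exact this
        rw [Submodule.mem_bot]
        exact Subtype.ext h3
      have h1 := LinearMap.finrank_le_finrank_of_injective hinj2
      rw [hfO] at h1
      exact h1
  · intro u hu hu2
    refine hnull u ((hKm u).2 ((hHker u).2 hu2)) ?_
    rw [hφe, hΞd.fderiv] at hu
    exact hu

end dat

end Pool.Agent.J4H57.CI
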